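import Mathlib

set_option autoImplicit false

namespace Pool.Agent.Results.MP_90f83a_nt.NonInt
open Finset

/-- the defining identities of the numbers `c_k^{(r,s)}` -/
def Defines (r s : ℕ) (c : ℕ → ℚ) : Prop :=
  ∀ n : ℕ, ∑ k ∈ range (n + 1), ((n.choose k : ℚ) ^ r * ((n + k).choose k : ℚ) ^ r) =
    ∑ k ∈ range (n + 1), (n.choose k : ℚ) ^ s * ((n + k).choose k : ℚ) ^ s * c k

lemma tail (m t : ℕ) (hp : (m + 3).Prime) (ht : 2 ≤ t) (z : ℕ → ℤ) :
    ((m + 3 : ℕ) : ℤ) ^ 2 ∣ ∑ k ∈ range m, ((m + 1).choose (k + 1 + 1) : ℤ) ^ t *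
      ((m + 1 + (k + 1 + 1)).choose (k + 1 + 1) : ℤ) ^ t * z (k + 1 + 1) := by
  refine dvd_sum fun k hk => ?_
  have hk := mem_range.1 hk
  have h1 : (m + 3) ∣ (m + 1 + (k + 1 + 1)).choose (k + 1 + 1) :=
    hp.dvd_choose (by omega) (by omega) (by omega)
  have h2 : ((m + 3 : ℕ) : ℤ) ∣ ((m + 1 + (k + 1 + 1)).choose (k + 1 + 1) : ℤ) := by exact_mod_cast h1
  exact (((pow_dvd_pow_of_dvd h2 2).trans (pow_dvd_pow _ ht)).mul_left _).mul_right _

lemma powmod (P : ℤ) (d : ℕ) : P ^ 2 ∣ ((P - 2) * (P - 1)) ^ (d + 1) - 2 ^ (d + 1) + 3 * P * (d + 1) * 2 ^ d := by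
  induction d with
  | zero => exact ⟨1, by ring⟩
  | succ d ih =>
    obtain ⟨e, he⟩ := ih
    refine ⟨e * ((P - 2) * (P - 1)) + 2 ^ (d + 1) - 3 * (d + 1) * 2 ^ d * (P - 3), ?_⟩
    push_cast
    linear_combination ((P - 2) * (P - 1)) * he

theorem result : ∀ r s : ℕ, 1 < s → s < r → ∀ c : ℕ → ℚ, Defines r s c →
    ∃ n : ℕ, 0 < n ∧ ¬ ∃ z : ℤ, c n = z := by
  intro r s hs hr c hc
  by_contra hcon
  push Not at hcon
  have c0 : c 0 = 1 := by simpa using (hc 0).symm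
  have hz : ∀ n, ∃ z : ℤ, c n = z := fun n => by
    rcases Nat.eq_zero_or_pos n with rfl | h
    · exact ⟨1, by simp [c0]⟩
    · exact hcon n h
  choose z hz using hz
  obtain ⟨d, rfl⟩ : ∃ d, r = s + (d + 1) := ⟨r - s - 1, by omega⟩
  have z0 : z 0 = 1 := by have := hz 0; rw [c0] at this; exact_mod_cast this.symm
  have z1 : z 1 = 2 ^ (d + 1) := by
    have h := hc 1
    simp only [sum_range_succ, hz, z0] at h
    norm_num at h
    rw [pow_add] at h
    have h := mul_left_cancel₀ (by positivity) h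
    exact_mod_cast h.symm
  obtain ⟨p, hp1, hp⟩ := Nat.exists_infinite_primes (d + 5)
  obtain ⟨m, rfl⟩ : ∃ m, p = m + 3 := ⟨p - 3, by omega⟩
  have h := hc (m + 1)
  simp only [hz] at h
  have h' : ∑ k ∈ range (m + 1 + 1), (((m + 1).choose k : ℤ) ^ (s + (d + 1)) *
      ((m + 1 + k).choose k : ℤ) ^ (s + (d + 1)) * (fun _ => (1 : ℤ)) k) =
      ∑ k ∈ range (m + 1 + 1), ((m + 1).choose k : ℤ) ^ s * ((m + 1 + k).choose k : ℤ) ^ s * z k := by
    simp only [mul_one]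
    exact_mod_cast h
  rw [sum_range_succ', sum_range_succ', sum_range_succ', sum_range_succ'] at h'
  obtain ⟨a, ha⟩ := tail m (s + (d + 1)) hp (by omega) (fun _ => 1)
  obtain ⟨b, hb⟩ := tail m s hp hs z
  rw [ha, hb] at h'
  simp only [zero_add, Nat.choose_one_right, Nat.choose_zero_right, z0, z1] at h'
  obtain ⟨e, he⟩ := powmod ((m + 3 : ℕ) : ℤ) d
  have hP : Prime ((m + 3 : ℕ) : ℤ) := Nat.prime_iff_prime_int.1 hp
  have key : ((m + 3 : ℕ) : ℤ) ∣ (((m : ℤ) + 1) * (m + 2)) ^ s * (3 * (d + 1) * 2 ^ d) := by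
    refine ⟨(((m : ℤ) + 1) * (m + 2)) ^ s * e + a - b, ?_⟩
    apply mul_left_cancel₀ hP.ne_zero
    push_cast at h' he ⊢
    rw [show (m : ℤ) + 3 - 2 = m + 1 by ring, show (m : ℤ) + 3 - 1 = m + 2 by ring] at he
    rw [show (m : ℤ) + 1 + 1 = m + 2 by ring, ← mul_pow, ← mul_pow, pow_add,
      ← mul_pow ((m : ℤ) + 1) (m + 2) s] at h'
    linear_combination (((m : ℤ) + 1) * (m + 2)) ^ s * he - h'
  have small : ∀ x : ℤ, 0 < x → x < m + 3 → ¬ ((m + 3 : ℕ) : ℤ) ∣ x := fun x h1 h2 h3 => by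
    have := Int.le_of_dvd h1 h3
    push_cast at this
    omega
  rcases hP.dvd_or_dvd key with h1 | h1
  · rcases hP.dvd_or_dvd (hP.dvd_of_dvd_pow h1) with h2 | h2
    · exact small _ (by positivity) (by omega) h2
    · exact small _ (by positivity) (by omega) h2
  · rcases hP.dvd_or_dvd h1 with h2 | h2
    · rcases hP.dvd_or_dvd h2 with h3 | h3
      · exact small _ (by positivity) (by omega) h3
      · exact small _ (by positivity) (by omega) h3
    · exact small _ (by positivity) (by omega) (hP.dvd_of_dvd_pow h2)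

end Pool.Agent.Results.MP_90f83a_nt.NonInt
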